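import Pool.Agent.MNT.StmtsA
import Pool.Agent.Helper36_BHT.A1

/-!
# MNT row A1G: on every circle in an odd annulus some point satisfies `|U| ≤ |G|`
-/

set_option autoImplicit false
open Polynomial

namespace Pool.Agent.MNT.H94

open BHT BHT.H36

theorem a1g : A1gStmt := by
  intro T H f w hT ζ ρ₁ ρ₂ h1 h12 hodd hroots ρ hρ
  by_contra hcon
  push Not at hcon
  have hρ0 : 0 < ρ := lt_of_le_of_lt h1 hρ.1
  set x : ℝ → ℂ := fun θ => ζ + ρ * EE θ with hx
  have hxc : Continuous x := continuous_const.add (continuous_const.mul EE_cont)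
  have hxp : ∀ θ, x (θ + 2 * Real.pi) = x θ := by intro θ; simp only [hx, EE_per]
  have hxn : ∀ θ, ‖x θ - ζ‖ = ρ := by
    intro θ
    simp only [hx, add_sub_cancel_left]
    rw [norm_mul, EE_norm, mul_one, Complex.norm_real, Real.norm_of_nonneg hρ0.le]
  have hT1 : ∀ θ, ‖H.eval (x θ)‖ < ‖T.eval (x θ)‖ := fun θ => hcon (x θ) (hxn θ)
  have hf0 : f ≠ 0 := by
    rintro rfl
    simp [cnt] at hodd
  -- the quotient (T-H)/(T+H)
  have hTp : ∀ θ, T.eval (x θ) + H.eval (x θ) ≠ 0 := by
    intro θ h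
    have h2 : T.eval (x θ) = -H.eval (x θ) := eq_neg_of_add_eq_zero_left h
    have := hT1 θ
    rw [h2, norm_neg] at this
    exact lt_irrefl _ this
  have hTc : Continuous fun θ => T.eval (x θ) := T.continuous.comp hxc
  have hHc : Continuous fun θ => H.eval (x θ) := H.continuous.comp hxc
  have hq : SQ (fun θ => (T.eval (x θ) - H.eval (x θ)) / (T.eval (x θ) + H.eval (x θ))) := by
    apply SQ.slit
    · exact (hTc.sub hHc).div (hTc.add hHc) hTp
    · intro θ; simp only [hxp]
    · intro θ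
      left
      obtain ⟨z, hz⟩ : ∃ z, z = T.eval (x θ) := ⟨_, rfl⟩
      obtain ⟨y, hy⟩ : ∃ y, y = H.eval (x θ) := ⟨_, rfl⟩
      have hz1 : ‖y‖ < ‖z‖ := by rw [hz, hy]; exact hT1 θ
      have hzp : z + y ≠ 0 := by rw [hz, hy]; exact hTp θ
      rw [← hz, ← hy, Complex.div_re, ← add_div]
      apply div_pos
      · have e : (z - y).re * (z + y).re + (z - y).im * (z + y).im =
            Complex.normSq z - Complex.normSq y := by
          simp only [Complex.sub_re, Complex.add_re, Complex.sub_im,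
            Complex.add_im, Complex.normSq_apply]
          ring
        rw [e, Complex.normSq_eq_norm_sq, Complex.normSq_eq_norm_sq]
        nlinarith [norm_nonneg y]
      · exact Complex.normSq_pos.2 hzp
  have hs : SQ (fun θ => T.eval (x θ) ^ 2 - H.eval (x θ) ^ 2) := by
    have h2 : SQ (fun θ => (T.eval (x θ) + H.eval (x θ)) ^ 2) :=
      ⟨fun θ => T.eval (x θ) + H.eval (x θ), hTc.add hHc, fun θ => by simp only [hxp],
        fun θ => rfl⟩
    have h3 := hq.mul h2
    have e : (fun θ => T.eval (x θ) ^ 2 - H.eval (x θ) ^ 2) = fun θ =>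
        (T.eval (x θ) - H.eval (x θ)) / (T.eval (x θ) + H.eval (x θ)) *
          (T.eval (x θ) + H.eval (x θ)) ^ 2 := by
      funext θ
      have := hTp θ
      field_simp
      ring
    rw [e]; exact h3
  have hev : ∀ θ, T.eval (x θ) ^ 2 - H.eval (x θ) ^ 2 = f.eval (x θ) * w.eval (x θ) ^ 2 := by
    intro θ
    have := congrArg (Polynomial.eval (x θ)) hT
    simpa using this
  have hw : ∀ θ, w.eval (x θ) ≠ 0 := by
    intro θ h
    have h2 := hev θ
    rw [h] at h2
    have h3 : T.eval (x θ) ^ 2 = H.eval (x θ) ^ 2 := by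
      have : T.eval (x θ) ^ 2 - H.eval (x θ) ^ 2 = 0 := by rw [h2]; ring
      exact sub_eq_zero.1 this
    have h4 : ‖T.eval (x θ)‖ ^ 2 = ‖H.eval (x θ)‖ ^ 2 := by rw [← norm_pow, h3, norm_pow]
    have := hT1 θ
    nlinarith [norm_nonneg (H.eval (x θ))]
  -- f(x(θ)) has a continuous root
  have hfS : SQ (fun θ => f.eval (x θ)) := by
    have h2 : SQ (fun θ => w.eval (x θ) ^ 2) :=
      ⟨fun θ => w.eval (x θ), w.continuous.comp hxc, fun θ => by simp only [hxp],
        fun θ => rfl⟩
    refine SQ.of_mul (G := fun θ => w.eval (x θ) ^ 2) ?_ h2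
      (fun θ => pow_ne_zero 2 (hw θ))
    have e : (fun θ => f.eval (x θ) * (w.eval (x θ) ^ 2))
        = fun θ => T.eval (x θ) ^ 2 - H.eval (x θ) ^ 2 := by
      funext θ
      rw [hev θ]
    rw [e]; exact hs
  obtain ⟨G, hG, hG0, hGe⟩ := prod_roots ζ ρ₁ ρ₂ ρ h1 hρ f.roots hroots
  have hlc : f.leadingCoeff ≠ 0 := Polynomial.leadingCoeff_ne_zero.2 hf0
  have hfeval : ∀ θ, f.eval (x θ) = EE θ ^ (cnt norm f ζ ρ₁) * (f.leadingCoeff * G θ) := by
    intro θ
    have h2 := (IsAlgClosed.splits f).eq_prod_roots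
    conv_lhs => rw [h2]
    rw [Polynomial.eval_mul, Polynomial.eval_C, Polynomial.eval_multiset_prod, Multiset.map_map]
    have e : (f.roots.map (Polynomial.eval (x θ) ∘ fun a => X - C a))
        = f.roots.map fun α => (ζ + ρ * EE θ) - α := by
      apply Multiset.map_congr rfl
      intro a _
      simp [hx]
    rw [e, hGe θ]
    unfold cnt
    ring
  refine odd_false hodd ?_
  refine SQ.of_mul (G := fun θ => f.leadingCoeff * G θ) ?_ ((SQ.const _).mul hG)
    (fun θ => mul_ne_zero hlc (hG0 θ))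
  have e : (fun θ => EE θ ^ (cnt norm f ζ ρ₁) * (f.leadingCoeff * G θ))
      = fun θ => f.eval (x θ) := by
    funext θ; rw [hfeval θ]
  rw [e]; exact hfS

end Pool.Agent.MNT.H94
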